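import Mathlib
import Pool.Agent.Lib.MP_6bc78b_nt.SW.Iface

/-! Project MS (MP_6bc78b_nt), module FIN of board sw_modules: the theorem of Siegel and Walfisz
from the bounds DER, Perron's inequality PER, the removal of weights UNS and the summability
part of LEIB. -/

set_option autoImplicit false

open Complex Finset DirichletCharacter

namespace Pool.Agent.Lib.MP_6bc78b_nt.SW.H93

open Pool.Agent.Lib.MP_6bc78b_nt.SW

/-- A power of a logarithm is at most a constant times a square root. -/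
lemma log_pow_le (E : ℕ) (t : ℝ) :
    Real.log (|t| + 3) ^ E ≤ (2 * (2 * ((E : ℝ) + 1)) ^ E) * (1 + |t|) ^ (1 / 2 : ℝ) := by
  have ht : 0 ≤ |t| := abs_nonneg t
  have hy : (0 : ℝ) ≤ |t| + 3 := by linarith
  have hy1 : (1 : ℝ) ≤ |t| + 3 := by linarith
  have hE : (0 : ℝ) < (E : ℝ) + 1 := by positivity
  set δ : ℝ := 1 / (2 * ((E : ℝ) + 1)) with hδ
  have hδ0 : 0 < δ := by positivity
  have h1 : Real.log (|t| + 3) ≤ (2 * ((E : ℝ) + 1)) * (|t| + 3) ^ δ := by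
    have := Real.log_le_rpow_div hy hδ0
    calc Real.log (|t| + 3) ≤ (|t| + 3) ^ δ / δ := this
      _ = (2 * ((E : ℝ) + 1)) * (|t| + 3) ^ δ := by
        rw [hδ]; field_simp
  have h0 : 0 ≤ Real.log (|t| + 3) := Real.log_nonneg hy1
  have h2 : Real.log (|t| + 3) ^ E ≤ ((2 * ((E : ℝ) + 1)) * (|t| + 3) ^ δ) ^ E :=
    pow_le_pow_left₀ h0 h1 E
  have h3 : ((|t| + 3) ^ δ) ^ E ≤ (|t| + 3) ^ (1 / 2 : ℝ) := by
    rw [← Real.rpow_natCast, ← Real.rpow_mul hy]
    apply Real.rpow_le_rpow_of_exponent_le hy1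
    rw [hδ]
    rw [div_mul_eq_mul_div, div_le_div_iff₀ (by positivity) (by norm_num)]
    linarith
  have h4 : (|t| + 3) ^ (1 / 2 : ℝ) ≤ 2 * (1 + |t|) ^ (1 / 2 : ℝ) := by
    have h5 : (4 : ℝ) ^ (1 / 2 : ℝ) = 2 := by
      rw [show (4 : ℝ) = 2 ^ (2 : ℝ) by norm_num, ← Real.rpow_mul (by norm_num)]
      norm_num
    calc (|t| + 3) ^ (1 / 2 : ℝ) ≤ (4 * (1 + |t|)) ^ (1 / 2 : ℝ) := by
          apply Real.rpow_le_rpow hy _ (by norm_num)
          linarith
      _ = 4 ^ (1 / 2 : ℝ) * (1 + |t|) ^ (1 / 2 : ℝ) :=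
          Real.mul_rpow (by norm_num) (by linarith)
      _ = 2 * (1 + |t|) ^ (1 / 2 : ℝ) := by rw [h5]
  calc Real.log (|t| + 3) ^ E ≤ ((2 * ((E : ℝ) + 1)) * (|t| + 3) ^ δ) ^ E := h2
    _ = (2 * ((E : ℝ) + 1)) ^ E * ((|t| + 3) ^ δ) ^ E := by rw [mul_pow]
    _ ≤ (2 * ((E : ℝ) + 1)) ^ E * (2 * (1 + |t|) ^ (1 / 2 : ℝ)) := by
      apply mul_le_mul_of_nonneg_left (h3.trans h4) (by positivity)
    _ = (2 * (2 * ((E : ℝ) + 1)) ^ E) * (1 + |t|) ^ (1 / 2 : ℝ) := by ring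

/-- A power of `1 + log q` is at most a constant times `q^ε`. -/
lemma one_add_log_pow_le (E : ℕ) (ε : ℝ) (hε : 0 < ε) : ∃ C : ℝ, 0 < C ∧ ∀ q : ℝ, 1 ≤ q →
    (1 + Real.log q) ^ E ≤ C * q ^ ε := by
  have hE : (0 : ℝ) < (E : ℝ) + 1 := by positivity
  set δ : ℝ := ε / ((E : ℝ) + 1) with hδ
  have hδ0 : 0 < δ := by positivity
  refine ⟨(1 + 1 / δ) ^ E, by positivity, ?_⟩
  intro q hq
  have hq0 : 0 ≤ q := by linarith
  have h1 : Real.log q ≤ q ^ δ / δ := Real.log_le_rpow_div hq0 hδ0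
  have h2 : 1 ≤ q ^ δ := Real.one_le_rpow hq hδ0.le
  have h3 : 1 + Real.log q ≤ (1 + 1 / δ) * q ^ δ := by
    calc 1 + Real.log q ≤ q ^ δ + q ^ δ / δ := by linarith
      _ = (1 + 1 / δ) * q ^ δ := by ring
  have h0 : 0 ≤ 1 + Real.log q := by
    have := Real.log_nonneg hq
    linarith
  calc (1 + Real.log q) ^ E ≤ ((1 + 1 / δ) * q ^ δ) ^ E := pow_le_pow_left₀ h0 h3 E
    _ = (1 + 1 / δ) ^ E * (q ^ δ) ^ E := by rw [mul_pow]
    _ ≤ (1 + 1 / δ) ^ E * q ^ ε := by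
      apply mul_le_mul_of_nonneg_left _ (by positivity)
      rw [← Real.rpow_natCast, ← Real.rpow_mul hq0]
      apply Real.rpow_le_rpow_of_exponent_le hq
      rw [hδ, div_mul_eq_mul_div, div_le_iff₀ hE]
      nlinarith

lemma LL_le (q : ℕ) (hq : 1 ≤ q) (t : ℝ) :
    LL q t ≤ (1 + Real.log q) * Real.log (|t| + 3) := by
  have ht : 0 ≤ |t| := abs_nonneg t
  have hq0 : (1 : ℝ) ≤ q := by exact_mod_cast hq
  have hlq : 0 ≤ Real.log q := Real.log_nonneg hq0
  have h1 : 1 ≤ Real.log (|t| + 3) := by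
    rw [Real.le_log_iff_exp_le (by linarith)]
    have := Real.exp_one_lt_d9
    linarith
  unfold LL
  rw [Real.log_mul (by linarith) (by linarith)]
  nlinarith

lemma LL_nonneg (q : ℕ) (hq : 1 ≤ q) (t : ℝ) : 0 ≤ LL q t := by
  have ht : 0 ≤ |t| := abs_nonneg t
  have hq0 : (1 : ℝ) ≤ q := by exact_mod_cast hq
  unfold LL
  apply Real.log_nonneg
  nlinarith

/-- `x^(1 + 1/(1 + log x)) ≤ 3 x`. -/
lemma rpow_le_three_mul (x : ℝ) (hx : 1 ≤ x) :
    x ^ (1 + 1 / (1 + Real.log x)) ≤ 3 * x := by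
  have hx0 : 0 < x := by linarith
  have hl : 0 ≤ Real.log x := Real.log_nonneg hx
  rw [Real.rpow_add hx0, Real.rpow_one]
  have h1 : x ^ (1 / (1 + Real.log x)) ≤ 3 := by
    rw [Real.rpow_def_of_pos hx0]
    have h2 : Real.log x * (1 / (1 + Real.log x)) ≤ 1 := by
      rw [mul_one_div, div_le_one (by linarith)]
      linarith
    calc Real.exp (Real.log x * (1 / (1 + Real.log x))) ≤ Real.exp 1 := Real.exp_le_exp.mpr h2
      _ ≤ 3 := by
        have := Real.exp_one_lt_d9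
        linarith
  nlinarith

/-- FIN: the theorem of Siegel and Walfisz. -/
theorem fin (hD : DerStatement) (hP : PerStatement) (hU : UnsStatement) (hL : LeibStatement) :
    SwStatement := by
  intro A B hA hB
  obtain ⟨k, hk⟩ := exists_nat_ge (2 * B + 4)
  have hk1 : 1 ≤ k := by
    have : (1 : ℝ) ≤ k := by linarith
    exact_mod_cast this
  set ε : ℝ := 1 / (2 * A) with hε
  have hε0 : 0 < ε := by positivity
  obtain ⟨C1, E, hC1, hD'⟩ := hD k ε hε0
  obtain ⟨C2, hC2, hP'⟩ := hP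
  obtain ⟨C3, hC3, hU'⟩ := hU k hk1
  obtain ⟨C4, hC4, h4⟩ := one_add_log_pow_le E ε hε0
  set C5 : ℝ := C1 * C4 * (2 * (2 * ((E : ℝ) + 1)) ^ E) with hC5
  have hC50 : 0 < C5 := by positivity
  set C6 : ℝ := 1 + 3 * C2 * C5 with hC6
  have hC60 : 0 < C6 := by positivity
  refine ⟨C3 * Real.sqrt C6, by positivity, ?_⟩
  intro X hX q hq hqX χ hχ
  have hlX : 1 ≤ Real.log X := by
    rw [Real.le_log_iff_exp_le (by linarith)]
    have := Real.exp_one_lt_d9
    linarith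
  have hlX0 : 0 < Real.log X := by linarith
  have hq1 : (1 : ℝ) ≤ q := by exact_mod_cast hq
  have hq0 : (0 : ℝ) ≤ q := by linarith
  -- the bound for the Dirichlet series
  have hser : ∀ c t : ℝ, 1 < c → c ≤ 2 →
      ‖LSeries (vmLog χ k) (c + t * I)‖ ≤ (C5 * (q : ℝ) ^ (2 * ε)) * (1 + |t|) ^ (1 / 2 : ℝ) := by
    intro c t hc hc2
    have h1 := hD' q hq χ hχ c t hc hc2
    have h2 : LL q t ^ E ≤ (1 + Real.log q) ^ E * Real.log (|t| + 3) ^ E := by
      rw [← mul_pow]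
      exact pow_le_pow_left₀ (LL_nonneg q hq t) (LL_le q hq t) E
    have h3 := h4 q hq1
    have h5 := log_pow_le E t
    have hlog0 : 0 ≤ Real.log (|t| + 3) := by
      apply Real.log_nonneg
      have := abs_nonneg t
      linarith
    have hqe : 0 ≤ (q : ℝ) ^ ε := Real.rpow_nonneg hq0 _
    calc ‖LSeries (vmLog χ k) (c + t * I)‖ ≤ C1 * (q : ℝ) ^ ε * LL q t ^ E := h1
      _ ≤ C1 * (q : ℝ) ^ ε * ((1 + Real.log q) ^ E * Real.log (|t| + 3) ^ E) :=
        mul_le_mul_of_nonneg_left h2 (by positivity)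
      _ ≤ C1 * (q : ℝ) ^ ε * ((C4 * (q : ℝ) ^ ε) *
          ((2 * (2 * ((E : ℝ) + 1)) ^ E) * (1 + |t|) ^ (1 / 2 : ℝ))) := by
        apply mul_le_mul_of_nonneg_left _ (by positivity)
        apply mul_le_mul h3 h5 (pow_nonneg hlog0 E) (by positivity)
      _ = (C5 * (q : ℝ) ^ (2 * ε)) * (1 + |t|) ^ (1 / 2 : ℝ) := by
        rw [hC5, show (2 * ε : ℝ) = ε + ε by ring, Real.rpow_add (by linarith)]
        ring
  -- Perron
  have hper : ∀ x : ℝ, 1 ≤ x →
      ‖∑ n ∈ Icc 1 ⌊x⌋₊, vmLog χ k n * (1 - (n : ℂ) / x)‖ ≤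
        (3 * C2 * C5 * (q : ℝ) ^ (2 * ε)) * x := by
    intro x hx
    have hl : 0 ≤ Real.log x := Real.log_nonneg hx
    have hc1 : 1 < 1 + 1 / (1 + Real.log x) := by
      have : 0 < 1 / (1 + Real.log x) := by positivity
      linarith
    have hc2 : 1 + 1 / (1 + Real.log x) ≤ 2 := by
      have : 1 / (1 + Real.log x) ≤ 1 := by
        rw [div_le_one (by linarith)]
        linarith
      linarith
    have h1 := hP' (vmLog χ k) (1 + 1 / (1 + Real.log x)) (C5 * (q : ℝ) ^ (2 * ε)) hc1 hc2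
      (by positivity)
      ((hL q hq χ k ((1 + 1 / (1 + Real.log x) : ℝ) : ℂ) (by
        rw [Complex.ofReal_re]; exact hc1)).1 k).2
      (fun t => hser _ t hc1 hc2) x hx
    calc ‖∑ n ∈ Icc 1 ⌊x⌋₊, vmLog χ k n * (1 - (n : ℂ) / x)‖
        ≤ C2 * (C5 * (q : ℝ) ^ (2 * ε)) * x ^ (1 + 1 / (1 + Real.log x)) := h1
      _ ≤ C2 * (C5 * (q : ℝ) ^ (2 * ε)) * (3 * x) := by
        apply mul_le_mul_of_nonneg_left (rpow_le_three_mul x hx) (by positivity)
      _ = (3 * C2 * C5 * (q : ℝ) ^ (2 * ε)) * x := by ring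
  -- the removal of the weights
  set K : ℝ := 1 + 3 * C2 * C5 * (q : ℝ) ^ (2 * ε) with hK
  have hqe2 : 0 ≤ (q : ℝ) ^ (2 * ε) := Real.rpow_nonneg hq0 _
  have hK1 : 1 ≤ K := by
    have : 0 ≤ 3 * C2 * C5 * (q : ℝ) ^ (2 * ε) := by positivity
    linarith
  have hKX : K ≤ C6 * Real.log X := by
    have h1 : (q : ℝ) ^ (2 * ε) ≤ Real.log X := by
      calc (q : ℝ) ^ (2 * ε) ≤ (Real.log X ^ A) ^ (2 * ε) :=
            Real.rpow_le_rpow hq0 hqX (by positivity)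
        _ = Real.log X := by
          rw [← Real.rpow_mul hlX0.le, hε]
          rw [show A * (2 * (1 / (2 * A))) = 1 by field_simp, Real.rpow_one]
    have h2 : 3 * C2 * C5 * (q : ℝ) ^ (2 * ε) ≤ 3 * C2 * C5 * Real.log X :=
      mul_le_mul_of_nonneg_left h1 (by positivity)
    rw [hK, hC6]
    linarith
  have hb : ∀ n : ℕ, 1 ≤ n →
      ‖χ (n : ZMod q) * (ArithmeticFunction.vonMangoldt n : ℂ)‖ ≤ Real.log n := by
    intro n hn
    rw [norm_mul]
    have h1 : ‖χ (n : ZMod q)‖ ≤ 1 := DirichletCharacter.norm_le_one χ _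
    have h2 : ‖(ArithmeticFunction.vonMangoldt n : ℂ)‖ = ArithmeticFunction.vonMangoldt n := by
      rw [Complex.norm_real, Real.norm_of_nonneg ArithmeticFunction.vonMangoldt_nonneg]
    rw [h2]
    have h3 : ArithmeticFunction.vonMangoldt n ≤ Real.log n :=
      ArithmeticFunction.vonMangoldt_le_log
    have h4 : 0 ≤ ArithmeticFunction.vonMangoldt n := ArithmeticFunction.vonMangoldt_nonneg
    nlinarith
  have hfin := hU' (fun n : ℕ => χ (n : ZMod q) * (ArithmeticFunction.vonMangoldt n : ℂ)) K X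
    hK1 hX hb (by
      intro x hx _
      have h1 := hper x hx
      have h2 : ∑ n ∈ Icc 1 ⌊x⌋₊, χ (n : ZMod q) * (ArithmeticFunction.vonMangoldt n : ℂ) *
          ((Real.log n ^ k : ℝ) : ℂ) * (1 - (n : ℂ) / x) =
          ∑ n ∈ Icc 1 ⌊x⌋₊, vmLog χ k n * (1 - (n : ℂ) / x) := by
        apply Finset.sum_congr rfl
        intro n _
        unfold vmLog
        push_cast
        ring
      rw [h2]
      refine h1.trans ?_
      apply mul_le_mul_of_nonneg_right _ (by linarith)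
      rw [hK]
      linarith)
  refine hfin.trans ?_
  have hs : Real.sqrt K ≤ Real.sqrt C6 * Real.sqrt (Real.log X) := by
    rw [← Real.sqrt_mul hC60.le]
    exact Real.sqrt_le_sqrt hKX
  have hpow : Real.sqrt (Real.log X) * Real.log X ^ (-(((k : ℝ) - 1) / 2)) ≤
      Real.log X ^ (-B) := by
    rw [Real.sqrt_eq_rpow, ← Real.rpow_add hlX0]
    apply Real.rpow_le_rpow_of_exponent_le hlX
    linarith
  have hX0 : 0 ≤ X := by linarith
  calc C3 * Real.sqrt K * X * Real.log X ^ (-(((k : ℝ) - 1) / 2))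
      ≤ C3 * (Real.sqrt C6 * Real.sqrt (Real.log X)) * X *
        Real.log X ^ (-(((k : ℝ) - 1) / 2)) := by
        apply mul_le_mul_of_nonneg_right _ (Real.rpow_nonneg hlX0.le _)
        apply mul_le_mul_of_nonneg_right _ hX0
        exact mul_le_mul_of_nonneg_left hs hC3.le
    _ = (C3 * Real.sqrt C6 * X) *
        (Real.sqrt (Real.log X) * Real.log X ^ (-(((k : ℝ) - 1) / 2))) := by ring
    _ ≤ (C3 * Real.sqrt C6 * X) * Real.log X ^ (-B) :=
        mul_le_mul_of_nonneg_left hpow (by positivity)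
    _ = C3 * Real.sqrt C6 * X * Real.log X ^ (-B) := by ring

end Pool.Agent.Lib.MP_6bc78b_nt.SW.H93
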